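import Mathlib
import Pool.Agent.Lib.MP_ef06cf_an.Unique
import Pool.Agent.Lib.MP_ef06cf_an.Exist

set_option autoImplicit false

open MeasureTheory Pool.Agent.Lib.MP_ef06cf_an

namespace Pool.Agent.Results.MP_ef06cf_an.UniqueMME

/-- The random Fibonacci subshift has exactly one measure of maximal entropy. -/
theorem result :
    ∃! μ : Measure (ℤ → Bool), IsProbabilityMeasure μ ∧ μ XRF = 1 ∧
      MeasurePreserving shift μ μ ∧ ksEntropy μ = Dynamics.coverEntropy shift XRF := by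
  rw [coverEntropy_eq]
  obtain ⟨μ, h1, h2, h3, h4⟩ := exists_mme
  refine ⟨μ, ⟨h1, h2, h3, le_antisymm (ks_le_htop h3 h2) h4⟩, ?_⟩
  rintro ν ⟨k1, k2, k3, k4⟩
  exact unique_mme k3 k2 k4.ge h3 h2 h4

end Pool.Agent.Results.MP_ef06cf_an.UniqueMME
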